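import Pool.Agent.H90.NumIdxProof

namespace Pool.Agent.Results.MP_3da572_an.ComplexFails

open Pool.Agent.H90.NumIdx
open scoped ENNReal

/-- Complex scalars: `n(ℓ_p) = n(ℓ_p^2)` fails for some `1 < p < ∞` (the proof takes `p = 4`). -/
theorem result :
    ¬ ∀ (p : ℝ≥0∞) [Fact (1 ≤ p)], 1 < p → p < ⊤ →
      numIndex ℂ (lp (fun _ : ℕ => ℂ) p) = numIndex ℂ (PiLp p fun _ : Fin 2 => ℂ) := by
  intro h
  have : Fact (1 ≤ (4 : ℝ≥0∞)) := ⟨by norm_num⟩
  exact main.ne (h 4 (by norm_num) (by simp))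

end Pool.Agent.Results.MP_3da572_an.ComplexFails
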